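import Pool.Agent.Work.MP_91103f_lv.Interface

/-!
# Block TRI: the descendants of a good vertex form a flat triangle (MP_91103f_co)
-/

namespace Pool.TriLev.helper45

open Pool.TriLev

open Pool.Agent.Work.MP_91103f_co

open Classical

section

variable {V : Type} {G : SimpleGraph V} {r : V}

lemma up_snoc {j : ℕ} {x y z : V} (h : Up G r j x y) (hc : Ch G r y z) :
    Up G r (j + 1) x z := by
  induction j generalizing x with
  | zero =>
    have h' : x = y := h
    subst h'
    exact ⟨z, hc, rfl⟩
  | succ j ih =>
    obtain ⟨c, h1, h2⟩ := h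
    exact ⟨c, h1, ih h2⟩

/-- a row of a flat triangle -/
structure Row (G : SimpleGraph V) (r x : V) (j : ℕ) (e : ℕ → V) : Prop where
  lev : ∀ i, i ≤ j → G.dist r (e i) = G.dist r x + j
  adj : ∀ i, i < j → G.Adj (e i) (e (i + 1))
  inj : ∀ i i', i ≤ j → i' ≤ j → e i = e i' → i = i'
  up : ∀ i, i ≤ j → Up G r j x (e i)

/-- a vertex with two children has a child different from a given one -/
lemma other {x c : V} (h2 : nch G r x = 2) (_ : Ch G r x c) : ∃ c', c' ≠ c ∧ Ch G r x c' := by
  unfold nch at h2
  obtain ⟨a, b, hab, hs⟩ := Set.ncard_eq_two.mp h2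
  have ha : Ch G r x a := by
    have : a ∈ {c | Ch G r x c} := by rw [hs]; simp
    exact this
  have hb : Ch G r x b := by
    have : b ∈ {c | Ch G r x c} := by rw [hs]; simp
    exact this
  by_cases h : a = c
  · exact ⟨b, fun h' => hab (h.trans h'.symm), hb⟩
  · exact ⟨a, h, ha⟩

lemma two_ch {x : V} (h2 : nch G r x = 2) : ∃ c c', c ≠ c' ∧ Ch G r x c ∧ Ch G r x c' := by
  unfold nch at h2
  obtain ⟨a, b, hab, hs⟩ := Set.ncard_eq_two.mp h2
  refine ⟨a, b, hab, ?_, ?_⟩
  · have : a ∈ {c | Ch G r x c} := by rw [hs]; simp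
    exact this
  · have : b ∈ {c | Ch G r x c} := by rw [hs]; simp
    exact this

/-- the next row, once its vertices are chosen -/
lemma mk_row (hL : LevStr G r) {x : V} {j : ℕ} {e g : ℕ → V} (hR : Row G r x j e)
    (hr : ∀ i, i ≤ j → e i ≠ r) (h2 : ∀ i, i ≤ j → nch G r (e i) = 2)
    (hl : ∀ i, i ≤ j → Ch G r (e i) (g i)) (hrr : ∀ i, i ≤ j → Ch G r (e i) (g (i + 1)))
    (hinj : ∀ i i', i < i' → i' ≤ j + 1 → g i ≠ g i') : Row G r x (j + 1) g := by
  refine ⟨?_, ?_, ?_, ?_⟩
  · intro i hi
    rcases Nat.lt_or_ge j i with h | h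
    · have hi' : i = j + 1 := by omega
      subst hi'
      have e1 := (hrr j le_rfl).2
      have e2 := hR.lev j le_rfl
      omega
    · have e1 := (hl i h).2
      have e2 := hR.lev i h
      omega
  · intro i hi
    exact hL.chAdj (e i) (g i) (g (i + 1)) (hr i (by omega)) (h2 i (by omega)) (hl i (by omega))
      (hrr i (by omega)) (hinj i (i + 1) (by omega) (by omega))
  · intro i i' hi hi' he
    rcases Nat.lt_trichotomy i i' with h | h | h
    · exact absurd he (hinj i i' h hi')
    · exact h
    · exact absurd he.symm (hinj i' i h hi)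
  · intro i hi
    rcases Nat.lt_or_ge j i with h | h
    · have hi' : i = j + 1 := by omega
      subst hi'
      exact up_snoc (hR.up j le_rfl) (hrr j le_rfl)
    · exact up_snoc (hR.up i h) (hl i h)

/-- the next row -/
lemma step (hL : LevStr G r) {x : V} {H j : ℕ} (hx : x ≠ r) (hG : Good G r H x)
    (hj : j < H) {e : ℕ → V} (hR : Row G r x j e) :
    ∃ g : ℕ → V, Row G r x (j + 1) g ∧ (∀ i, i ≤ j → Ch G r (e i) (g i)) ∧
      (∀ i, i ≤ j → Ch G r (e i) (g (i + 1))) := by
  have hx0 : 0 < G.dist r x := by
    rcases Nat.eq_zero_or_pos (G.dist r x) with h | h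
    · exfalso
      have := (hL.conn r x).dist_eq_zero_iff.mp h
      exact hx this.symm
    · exact h
  have hr : ∀ i, i ≤ j → e i ≠ r := by
    intro i hi h
    have := hR.lev i hi
    rw [h, SimpleGraph.dist_self] at this
    omega
  have h2 : ∀ i, i ≤ j → nch G r (e i) = 2 := fun i hi => hG j hj (e i) (hR.up i hi)
  rcases Nat.eq_zero_or_pos j with hj0 | hj0
  · subst hj0
    obtain ⟨c, c', hcc, hc, hc'⟩ := two_ch (h2 0 le_rfl)
    have hl : ∀ i, i ≤ 0 → Ch G r (e i) ((fun i => if i = 0 then c else c') i) := by
      intro i hi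
      have : i = 0 := by omega
      subst this
      simpa using hc
    have hrr : ∀ i, i ≤ 0 → Ch G r (e i) ((fun i => if i = 0 then c else c') (i + 1)) := by
      intro i hi
      have : i = 0 := by omega
      subst this
      simpa using hc'
    refine ⟨fun i => if i = 0 then c else c', ?_, hl, hrr⟩
    apply mk_row hL hR hr h2 hl hrr
    intro i i' h1 h3
    have e1 : i = 0 := by omega
    have e2 : i' = 1 := by omega
    subst e1
    subst e2
    simpa using hcc
  · -- the common children of neighbours in the row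
    have hm : ∀ i : ℕ, ∃ c, i < j → Ch G r (e i) c ∧ Ch G r (e (i + 1)) c := by
      intro i
      by_cases h : i < j
      · obtain ⟨c, h1, h3⟩ := hL.sib (e i) (e (i + 1)) (hR.adj i h)
          ((hR.lev i (by omega)).trans (hR.lev (i + 1) (by omega)).symm)
        exact ⟨c, fun _ => ⟨h1, h3⟩⟩
      · exact ⟨x, fun h' => absurd h' h⟩
    choose m hm using hm
    obtain ⟨a, ha, ha'⟩ := other (h2 0 (by omega)) (hm 0 hj0).1
    have hmj := hm (j - 1) (by omega)
    have ejj : j - 1 + 1 = j := by omega
    rw [ejj] at hmj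
    obtain ⟨b, hb, hb'⟩ := other (h2 j le_rfl) hmj.2
    obtain ⟨g, hg⟩ : ∃ g : ℕ → V, g = fun i => if i = 0 then a else if i ≤ j then m (i - 1) else b :=
      ⟨_, rfl⟩
    have g0 : g 0 = a := by rw [hg]; simp
    have gm : ∀ i, i < j → g (i + 1) = m i := by
      intro i hi
      rw [hg]
      simp only [Nat.add_eq_zero_iff, one_ne_zero, and_false, if_false, Nat.add_sub_cancel]
      rw [if_pos (by omega)]
    have gj : g (j + 1) = b := by
      rw [hg]
      simp only [Nat.add_eq_zero_iff, one_ne_zero, and_false, if_false]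
      rw [if_neg (by omega)]
    have hl : ∀ i, i ≤ j → Ch G r (e i) (g i) := by
      intro i hi
      rcases Nat.eq_zero_or_pos i with h | h
      · subst h; rw [g0]; exact ha'
      · obtain ⟨i', rfl⟩ : ∃ i', i = i' + 1 := ⟨i - 1, by omega⟩
        rw [gm i' (by omega)]
        exact (hm i' (by omega)).2
    have hrr : ∀ i, i ≤ j → Ch G r (e i) (g (i + 1)) := by
      intro i hi
      rcases Nat.lt_or_ge i j with h | h
      · rw [gm i h]; exact (hm i h).1
      · have : i = j := by omega
        subst this
        rw [gj]; exact hb'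
    refine ⟨g, ?_, hl, hrr⟩
    apply mk_row hL hR hr h2 hl hrr
    -- distinctness
    have hpar : ∀ (y : V) (i1 i2 i3 : ℕ), i1 ≤ j → i2 ≤ j → i3 ≤ j → i1 ≠ i2 → i1 ≠ i3 → i2 ≠ i3 →
        Ch G r (e i1) y → Ch G r (e i2) y → Ch G r (e i3) y → False := by
      intro y i1 i2 i3 h1 h3 h4 n1 n2 n3 c1 c2 c3
      rcases hL.par2 y _ _ _ c1 c2 c3 with h | h | h
      · exact n1 (hR.inj _ _ h1 h3 h)
      · exact n2 (hR.inj _ _ h1 h4 h)
      · exact n3 (hR.inj _ _ h3 h4 h)
    intro i i' hii hi' he
    obtain ⟨k, rfl⟩ : ∃ k, i' = k + 1 := ⟨i' - 1, by omega⟩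
    -- `e k` is a parent of `g (k+1)`; if `k < j` so is `e (k+1)`
    have p1 : Ch G r (e k) (g (k + 1)) := hrr k (by omega)
    have p2 : k < j → Ch G r (e (k + 1)) (g (k + 1)) := fun h => hl (k + 1) (by omega)
    rcases Nat.eq_zero_or_pos i with hi0 | hi0
    · subst hi0
      have p3 : Ch G r (e 0) (g (k + 1)) := by rw [← he]; exact hl 0 (by omega)
      rcases Nat.lt_or_ge k j with hk | hk
      · rcases Nat.eq_zero_or_pos k with hk0 | hk0
        · subst hk0
          rw [g0, gm 0 hk] at he
          exact ha he
        · exact hpar _ 0 k (k + 1) (by omega) (by omega) (by omega) (by omega) (by omega)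
            (by omega) p3 p1 (p2 hk)
      · have hkj : k = j := by omega
        subst hkj
        rcases Nat.lt_or_ge 1 k with hk1 | hk1
        · -- closed row
          have hadj : G.Adj (e 0) (e k) := hL.parAdj _ _ _ p3 p1 (by
            intro h
            have := hR.inj 0 k (by omega) le_rfl h
            omega)
          refine hL.cyc (k + 1) (fun t => if t ≤ k then e t else e 0) (by omega) ?_ ?_ ?_ ?_ ?_
          · simp
          · intro s t hs ht h
            rw [if_pos (by omega), if_pos (by omega)] at h
            exact hR.inj s t (by omega) (by omega) h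
          · intro t ht
            rw [if_pos (by omega)]
            rcases Nat.lt_or_ge t k with h | h
            · rw [if_pos (by omega)]
              exact hR.adj t h
            · have : t = k := by omega
              subst this
              rw [if_neg (by omega)]
              exact hadj.symm
          · intro t ht
            rw [if_pos (by omega), if_pos (by omega), hR.lev t (by omega), hR.lev 0 (by omega)]
          · intro t ht
            rw [if_pos (by omega)]
            exact h2 t (by omega)
        · have hk1' : k = 1 := by omega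
          subst hk1'
          have hne : e 0 ≠ e 1 := by
            intro h
            have := hR.inj 0 1 (by omega) (by omega) h
            omega
          have e1 := hL.uniq (e 0) (e 1) (g 1) (g 2) hne (hrr 0 (by omega)) (hl 1 (by omega)) p3 p1
          rw [gm 0 (by omega)] at e1
          have : a = m 0 := by
            rw [← g0, he]; exact e1.symm
          exact ha this
    · obtain ⟨l, rfl⟩ : ∃ l, i = l + 1 := ⟨i - 1, by omega⟩
      -- `g (l+1)` is interior, with the parents `e l` and `e (l+1)`
      have q1 : Ch G r (e l) (g (k + 1)) := by rw [← he]; exact hrr l (by omega)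
      have q2 : Ch G r (e (l + 1)) (g (k + 1)) := by rw [← he]; exact hl (l + 1) (by omega)
      rcases Nat.lt_or_ge k j with hk | hk
      · exact hpar _ l (l + 1) (k + 1) (by omega) (by omega) (by omega) (by omega) (by omega)
          (by omega) q1 q2 (p2 hk)
      · have hkj : k = j := by omega
        subst hkj
        rcases Nat.lt_or_ge (l + 1) k with h | h
        · exact hpar _ l (l + 1) k (by omega) (by omega) (by omega) (by omega) (by omega)
            (by omega) q1 q2 p1
        · have hlk : l + 1 = k := by omega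
          rw [gj, gm l (by omega)] at he
          have : k - 1 = l := by omega
          rw [this] at hb
          exact hb he.symm

end

theorem stmt_TRI (hP : Stmt_PHI) : Stmt_TRI := by
  intro V G r hL H x hx hG
  obtain ⟨_, _, hP3, _⟩ := hP hL
  -- the rows
  have hstep : ∀ (j : ℕ) (e : ℕ → V), ∃ g : ℕ → V, j < H → Row G r x j e →
      Row G r x (j + 1) g ∧ (∀ i, i ≤ j → Ch G r (e i) (g i)) ∧
      (∀ i, i ≤ j → Ch G r (e i) (g (i + 1))) := by
    intro j e
    by_cases h : j < H ∧ Row G r x j e
    · obtain ⟨g, hg⟩ := step hL hx hG h.1 h.2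
      exact ⟨g, fun _ _ => hg⟩
    · exact ⟨e, fun h1 h3 => absurd ⟨h1, h3⟩ h⟩
  choose F hF using hstep
  obtain ⟨ps, hps0, hpsS⟩ : ∃ ps : ℕ → ℕ → V, ps 0 = (fun _ => x) ∧
      ∀ j, ps (j + 1) = F j (ps j) :=
    ⟨fun j => Nat.rec (fun _ => x) (fun j e => F j e) j, rfl, fun j => rfl⟩
  have hrow : ∀ j, j ≤ H → Row G r x j (ps j) := by
    intro j
    induction j with
    | zero =>
      intro _
      rw [hps0]
      refine ⟨?_, ?_, ?_, ?_⟩
      · intro i hi; simp
      · intro i hi; omega
      · intro i i' hi hi' _; omega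
      · intro i hi
        exact rfl
    | succ j ih =>
      intro hj
      rw [hpsS]
      exact (hF j (ps j) (by omega) (ih (by omega))).1
  have hch : ∀ j, j < H → (∀ i, i ≤ j → Ch G r (ps j i) (ps (j + 1) i)) ∧
      (∀ i, i ≤ j → Ch G r (ps j i) (ps (j + 1) (i + 1))) := by
    intro j hj
    rw [hpsS]
    exact (hF j (ps j) hj (hrow j hj.le)).2
  have hx0 : 0 < G.dist r x := by
    rcases Nat.eq_zero_or_pos (G.dist r x) with h | h
    · exfalso
      have := (hL.conn r x).dist_eq_zero_iff.mp h
      exact hx this.symm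
    · exact h
  refine ⟨ps, ?_, ?_, ?_, ?_, ?_, ?_, ?_⟩
  · rw [hps0]
  · intro j i hi hj
    exact (hrow j hj).lev i hi
  · intro j i hi hj
    exact (hrow j hj).adj i hi
  · intro j i hi hj
    exact (hch j hj).1 i hi
  · intro j i hi hj
    exact (hch j hj).2 i hi
  · intro j i i' hi hi' hj he
    exact (hrow j hj).inj i i' hi hi' he
  · intro j i hi hj
    apply hP3 (ps j i) (ps (j + 2) (i + 1)) (ps (j + 1) i) (ps (j + 1) (i + 1))
    · intro h
      have := (hrow j (by omega)).lev i hi
      rw [h, SimpleGraph.dist_self] at this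
      omega
    · exact hG j (by omega) _ ((hrow j (by omega)).up i hi)
    · intro h
      have := (hrow (j + 1) (by omega)).inj i (i + 1) (by omega) (by omega) h
      omega
    · exact (hch j (by omega)).1 i hi
    · exact (hch j (by omega)).2 i hi
    · exact (hch (j + 1) (by omega)).2 i (by omega)
    · exact (hch (j + 1) (by omega)).1 (i + 1) (by omega)

end Pool.TriLev.helper45
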